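import Pool.Agent.Helpers25.FormMain

/-!
# MP_44c8f1_al: complements in the lattice of formations between two local formations

`Formation` and the complete lattice of formations (infimum = intersection, supremum = smallest
formation containing both) are in `Pool/Agent/Results/MP_4f47f1_al/Defs.lean`. A formation is
saturated if `G/Φ(G)` in the formation implies `G` in the formation; by the theorem of
Gaschütz–Lubeseder–Schmid quoted in the problem file this is the same as being local.
-/

namespace Pool.Agent.Results.MP_44c8f1_al.Complements

open Pool.Agent.Results.MP_4f47f1_al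

/-- A formation `F` is saturated: `G ⧸ Φ(G) ∈ F` implies `G ∈ F`, for every finite group `G`. -/
def Saturated (F : Formation) : Prop :=
  ∀ (G : Type) [Group G] [Finite G], F.mem (G ⧸ frattini G) → F.mem G

/-- If `H` and `M` are saturated formations and the formations `F₁`, `F₂` are complements of each
other in the lattice of formations between `H` and `M`, then `F₁` and `F₂` are saturated. -/
theorem result (H M F₁ F₂ : Formation) (hH : Saturated H) (hM : Saturated M)
    (hHM : H ≤ M) (h1 : F₁ ∈ Set.Icc H M) (h2 : F₂ ∈ Set.Icc H M)
    (hinf : F₁ ⊓ F₂ = H) (hsup : F₁ ⊔ F₂ = M) : Saturated F₁ ∧ Saturated F₂ :=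
  ⟨Pool.Agent.Helpers25.FS.sat_left F₁ F₂ H M hH hM hinf hsup,
    Pool.Agent.Helpers25.FS.sat_left F₂ F₁ H M hH hM (by rw [inf_comm]; exact hinf)
      (by rw [sup_comm]; exact hsup)⟩

end Pool.Agent.Results.MP_44c8f1_al.Complements
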